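import Mathlib

set_option autoImplicit false

namespace Pool.Agent.Results.MP_93b7f4_co.DiracFails

open SimpleGraph

/-- `G` is `k`-critical. -/
def Critical {V : Type} (k : ℕ) (G : SimpleGraph V) : Prop :=
  G.chromaticNumber = k ∧ ∀ H : G.Subgraph, H ≠ ⊤ → H.coe.chromaticNumber < k

/-- `G` arises from `G₁`, `G₂` by Dirac's construction with parameter `h`; `f₁`, `f₂` are the
inclusions of the two vertex sets into that of `G`. -/
structure IsDirac {V₁ V₂ W : Type} [DecidableEq W] (h : ℕ) (G₁ : SimpleGraph V₁)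
    (G₂ : SimpleGraph V₂) (H₁ : Finset V₁) (H₂ : Finset V₂) (x₁ y₁ : V₁) (x₂ y₂ : V₂)
    (f₁ : V₁ → W) (f₂ : V₂ → W) (G : SimpleGraph W) : Prop where
  clique₁ : G₁.IsNClique h H₁
  clique₂ : G₂.IsNClique h H₂
  x₁_mem : x₁ ∈ H₁
  x₂_mem : x₂ ∈ H₂
  y₁_not_mem : y₁ ∉ H₁
  y₂_not_mem : y₂ ∉ H₂
  adj₁ : G₁.Adj x₁ y₁
  adj₂ : G₂.Adj x₂ y₂
  inj₁ : Function.Injective f₁
  inj₂ : Function.Injective f₂
  cover : ∀ w, (∃ a, f₁ a = w) ∨ (∃ b, f₂ b = w)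
  glue : H₁.image f₁ = H₂.image f₂
  glue_only : ∀ a b, f₁ a = f₂ b → a ∈ H₁
  glue_x : f₁ x₁ = f₂ x₂
  adj_iff : ∀ p q, G.Adj p q ↔
    (∃ a b, G₁.Adj a b ∧ s(a, b) ≠ s(x₁, y₁) ∧ f₁ a = p ∧ f₁ b = q) ∨
    (∃ a b, G₂.Adj a b ∧ s(a, b) ≠ s(x₂, y₂) ∧ f₂ a = p ∧ f₂ b = q) ∨
    s(p, q) = s(f₁ y₁, f₂ y₂)

def E₁ : List (ℕ × ℕ) :=
  [(0, 1), (0, 2), (0, 5), (0, 6), (0, 9), (1, 2), (1, 4), (1, 5), (1, 7), (2, 3), (2, 5), (2, 9), (3, 4), (3, 8), (3, 9), (4, 5), (4, 6), (4, 7), (4, 8), (5, 6), (6, 8), (6, 9), (7, 8), (7, 9), (8, 9)]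

def E : List (ℕ × ℕ) :=
  [(0, 1), (0, 2), (0, 5), (0, 6), (0, 9), (1, 2), (1, 4), (1, 5), (1, 7), (2, 3), (2, 5), (2, 9), (2, 10), (2, 11), (2, 13), (3, 8), (3, 9), (3, 16), (4, 5), (4, 6), (4, 7), (4, 8), (4, 12), (5, 6), (6, 8), (6, 9), (7, 8), (7, 9), (8, 9), (9, 10), (9, 14), (9, 15), (9, 16), (10, 11), (10, 13), (10, 14), (11, 12), (11, 13), (11, 15), (12, 13), (12, 14), (12, 15), (12, 16), (13, 14), (14, 16), (15, 16)]

def G₁ : SimpleGraph (Fin 10) where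
  Adj a b := (a.val, b.val) ∈ E₁ ∨ (b.val, a.val) ∈ E₁
  symm := ⟨fun _ _ h => h.symm⟩
  loopless := ⟨by decide⟩

def G : SimpleGraph (Fin 17) where
  Adj a b := (a.val, b.val) ∈ E ∨ (b.val, a.val) ∈ E
  symm := ⟨fun _ _ h => h.symm⟩
  loopless := ⟨by decide⟩

instance : DecidableRel G₁.Adj := fun a b =>
  inferInstanceAs (Decidable ((a.val, b.val) ∈ E₁ ∨ (b.val, a.val) ∈ E₁))

instance : DecidableRel G.Adj := fun a b =>
  inferInstanceAs (Decidable ((a.val, b.val) ∈ E ∨ (b.val, a.val) ∈ E))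

def f₁ (a : Fin 10) : Fin 17 := a.castLE (by norm_num)

def f₂ : Fin 10 → Fin 17 := ![10, 11, 2, 3, 12, 13, 14, 15, 16, 9]

set_option synthInstance.maxSize 100000 in
lemma force0 : ∀ c0 : Fin 4, 
    ∀ c1 : Fin 4, c0 ≠ c1 → 
    ∀ c2 : Fin 4, c0 ≠ c2 → c1 ≠ c2 → 
    ∀ c5 : Fin 4, c0 ≠ c5 → c1 ≠ c5 → c2 ≠ c5 → 
    ∀ c6 : Fin 4, c0 ≠ c6 → c5 ≠ c6 → 
    ∀ c4 : Fin 4, c1 ≠ c4 → c4 ≠ c5 → c4 ≠ c6 → 
    ∀ c9 : Fin 4, c0 ≠ c9 → c6 ≠ c9 → 
    ∀ c3 : Fin 4, c2 ≠ c3 → c3 ≠ c9 → 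
    ∀ c8 : Fin 4, c3 ≠ c8 → c4 ≠ c8 → c6 ≠ c8 → c8 ≠ c9 → 
    ∀ c7 : Fin 4, c1 ≠ c7 → c4 ≠ c7 → c7 ≠ c8 → c7 ≠ c9 → 
    (c2 ≠ c9 ∧ c3 = c4) ∨ (c2 = c9 ∧ c4 = c2) := by
  decide +kernel

lemma force (c : Fin 10 → Fin 4)
    (h : ∀ a b, G₁.Adj a b → s(a, b) ≠ s(3, 4) → s(a, b) ≠ s(2, 9) → c a ≠ c b) :
    (c 2 ≠ c 9 ∧ c 3 = c 4) ∨ (c 2 = c 9 ∧ c 4 = c 2) :=
  force0 (c 0) 
    (c 1) (h 0 1 (by decide) (by decide) (by decide)) 
    (c 2) (h 0 2 (by decide) (by decide) (by decide)) (h 1 2 (by decide) (by decide) (by decide)) 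
    (c 5) (h 0 5 (by decide) (by decide) (by decide)) (h 1 5 (by decide) (by decide) (by decide)) (h 2 5 (by decide) (by decide) (by decide)) 
    (c 6) (h 0 6 (by decide) (by decide) (by decide)) (h 5 6 (by decide) (by decide) (by decide)) 
    (c 4) (h 1 4 (by decide) (by decide) (by decide)) (h 4 5 (by decide) (by decide) (by decide)) (h 4 6 (by decide) (by decide) (by decide)) 
    (c 9) (h 0 9 (by decide) (by decide) (by decide)) (h 6 9 (by decide) (by decide) (by decide)) 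
    (c 3) (h 2 3 (by decide) (by decide) (by decide)) (h 3 9 (by decide) (by decide) (by decide)) 
    (c 8) (h 3 8 (by decide) (by decide) (by decide)) (h 4 8 (by decide) (by decide) (by decide)) (h 6 8 (by decide) (by decide) (by decide)) (h 8 9 (by decide) (by decide) (by decide)) 
    (c 7) (h 1 7 (by decide) (by decide) (by decide)) (h 4 7 (by decide) (by decide) (by decide)) (h 7 8 (by decide) (by decide) (by decide)) (h 7 9 (by decide) (by decide) (by decide)) 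
    
def cols : List ℕ :=
  [744976, 728644, 922404, 855588, 236644, 728596, 470308, 861988, 941156, 896164, 924452, 728612, 896036, 896100, 502884, 925476, 863780, 924772, 925220, 457956, 859684, 466468, 957540, 973924, 990756]

def col (N : ℕ) (a : Fin 10) : Fin 4 := Fin.ofNat 4 (N / 4 ^ a.val)

lemma cert : ∀ a b : Fin 10, G₁.Adj a b → ∃ N ∈ cols, ∀ p q : Fin 10, G₁.Adj p q →
    (p = a ∧ q = b) ∨ (p = b ∧ q = a) ∨ col N p ≠ col N q := by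
  decide +kernel

lemma noiso : ∀ a : Fin 10, ∃ b, G₁.Adj a b := by decide +kernel

lemma crit : Critical 5 G₁ := by
  constructor
  · have h5 : G₁.Colorable 5 :=
      ⟨Coloring.mk (![0, 1, 2, 0, 2, 3, 1, 0, 3, 4] : Fin 10 → Fin 5) (by decide +kernel)⟩
    have h4 : ¬ G₁.Colorable 4 := by
      rintro ⟨C⟩
      rcases force C (fun a b h _ _ => C.valid h) with h | h
      · exact C.valid (show G₁.Adj 3 4 by decide) h.2
      · exact C.valid (show G₁.Adj 2 9 by decide) h.1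
    refine le_antisymm h5.chromaticNumber_le ?_
    by_contra hlt
    push Not at hlt
    exact h4 (chromaticNumber_le_iff_colorable.mp (Order.le_of_lt_add_one hlt))
  · intro H hH
    have : ∃ a b, G₁.Adj a b ∧ ¬ H.Adj a b := by
      by_contra hne
      push Not at hne
      apply hH
      ext a b
      · obtain ⟨b, hb⟩ := noiso a
        simpa using H.edge_vert (hne a b hb)
      · exact ⟨fun h => H.adj_sub h, fun h => hne a b h⟩
    obtain ⟨a, b, hab, hn⟩ := this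
    obtain ⟨N, -, hN⟩ := cert a b hab
    have h4 : H.coe.Colorable 4 := by
      refine ⟨Coloring.mk (fun z => col N z) ?_⟩
      intro p q hpq
      have hpq' : H.Adj p q := hpq
      rcases hN p q (H.adj_sub hpq') with ⟨h1, h2⟩ | ⟨h1, h2⟩ | h
      · exact absurd (h1 ▸ h2 ▸ hpq') hn
      · exact absurd (h1 ▸ h2 ▸ hpq'.symm) hn
      · exact h
    exact h4.chromaticNumber_le.trans_lt (by norm_num)

lemma tr₁ : ∀ a b, G₁.Adj a b → s(a, b) ≠ s(3, 4) → s(a, b) ≠ s(2, 9) →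
    G.Adj (f₁ a) (f₁ b) ∧ s(f₁ a, f₁ b) ≠ s(2, 9) := by decide +kernel

lemma tr₂ : ∀ a b, G₁.Adj a b → s(a, b) ≠ s(3, 4) → s(a, b) ≠ s(2, 9) →
    G.Adj (f₂ a) (f₂ b) ∧ s(f₂ a, f₂ b) ≠ s(2, 9) := by decide +kernel

lemma notcrit : ¬ Critical 5 G := by
  rintro ⟨-, h⟩
  let H : G.Subgraph := (⊤ : G.Subgraph).deleteEdges {s(2, 9)}
  have hH : H ≠ ⊤ := by
    intro he
    have : H.Adj 2 9 := by rw [he]; exact (by decide : G.Adj 2 9)
    simp [H] at this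
  have h1 := h H hH
  obtain ⟨C⟩ : H.coe.Colorable 4 :=
    chromaticNumber_le_iff_colorable.mp (Order.le_of_lt_add_one h1)
  let c : Fin 17 → Fin 4 := fun z => C ⟨z, by simp [H]⟩
  have hc : ∀ p q, G.Adj p q → s(p, q) ≠ s(2, 9) → c p ≠ c q := by
    intro p q h1 h2
    apply C.valid
    simp only [Subgraph.coe_adj, H, Subgraph.deleteEdges_adj, Subgraph.top_adj,
      Set.mem_singleton_iff]
    exact ⟨h1, h2⟩
  have a1 := force (fun a => c (f₁ a))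
    (fun a b h1 h2 h3 => hc _ _ (tr₁ a b h1 h2 h3).1 (tr₁ a b h1 h2 h3).2)
  have a2 := force (fun a => c (f₂ a))
    (fun a b h1 h2 h3 => hc _ _ (tr₂ a b h1 h2 h3).1 (tr₂ a b h1 h2 h3).2)
  have a3 := hc (f₁ 4) (f₂ 4) (by decide) (by decide)
  have e1 : f₂ 2 = f₁ 2 := by decide
  have e2 : f₂ 9 = f₁ 9 := by decide
  have e3 : f₂ 3 = f₁ 3 := by decide
  simp only [e1, e2, e3] at a2
  rcases a1 with a1 | a1 <;> rcases a2 with a2 | a2
  · exact a3 (a1.2.symm.trans a2.2)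
  · exact a1.1 a2.1
  · exact a2.1 a1.1
  · exact a3 (a1.2.trans a2.2.symm)

theorem result : ∃ (n₁ n₂ m : ℕ) (G₁ : SimpleGraph (Fin n₁)) (G₂ : SimpleGraph (Fin n₂))
    (H₁ : Finset (Fin n₁)) (H₂ : Finset (Fin n₂)) (x₁ y₁ : Fin n₁) (x₂ y₂ : Fin n₂)
    (f₁ : Fin n₁ → Fin m) (f₂ : Fin n₂ → Fin m) (G : SimpleGraph (Fin m)),
    Critical 5 G₁ ∧ Critical 5 G₂ ∧ IsDirac 3 G₁ G₂ H₁ H₂ x₁ y₁ x₂ y₂ f₁ f₂ G ∧
      ¬ Critical 5 G := by
  refine ⟨10, 10, 17, G₁, G₁, {3, 2, 9}, {3, 2, 9}, 3, 4, 3, 4, f₁, f₂, G,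
    crit, crit, ?_, notcrit⟩
  have hcl : G₁.IsNClique 3 {3, 2, 9} :=
    is3Clique_triple_iff.mpr (by decide)
  exact ⟨hcl, hcl, by decide, by decide, by decide, by decide, by decide, by decide,
    by decide, by decide, by decide +kernel, by decide +kernel, by decide +kernel, by decide,
    by decide +kernel⟩

end Pool.Agent.Results.MP_93b7f4_co.DiracFails
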